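import Pool.Agent.Run7.h717.SA.Iface

/-! Piece MOM: convergence of the moments of order at least two gives vague convergence. -/

set_option autoImplicit false

namespace Pool.Agent.Run7.h975.SA

open MeasureTheory ProbabilityTheory Filter Topology Set
open scoped ENNReal
open scoped CompactlySupported
open Pool.Agent.Run7.h717.SA

section one
variable {ρ : Measure ℝ} [IsFiniteMeasure ρ] (h0 : ρ (Icc 0 1)ᶜ = 0)

include h0

theorem ae_mem : ∀ᵐ x ∂ρ, x ∈ Icc (0 : ℝ) 1 := by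
  rw [ae_iff]
  exact h0

theorem integrable_cont {h : ℝ → ℝ} (hh : Continuous h) : Integrable h ρ := by
  have h1 : ρ.restrict (Icc 0 1) = ρ := Measure.restrict_eq_self_of_ae_mem (ae_mem h0)
  have h2 : IntegrableOn h (Icc 0 1) ρ := hh.continuousOn.integrableOn_compact isCompact_Icc
  unfold IntegrableOn at h2
  rwa [h1] at h2

theorem int_comap (h : ℝ → ℝ) (hz : h 0 = 0) :
    ∫ x : Ioi (0 : ℝ), h x ∂(ρ.comap Subtype.val) = ∫ x, h x ∂ρ := by
  rw [integral_subtype_comap measurableSet_Ioi h]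
  refine setIntegral_eq_integral_of_ae_compl_eq_zero ?_
  filter_upwards [ae_mem h0] with x hx hx'
  have h1 : x = 0 := by
    rw [mem_Ioi] at hx'
    exact le_antisymm (not_lt.1 hx') hx.1
  rw [h1, hz]

theorem int_poly (p : Polynomial ℝ) : ∫ x, x ^ 2 * p.eval x ∂ρ =
    ∑ i ∈ Finset.range (p.natDegree + 1), p.coeff i * ∫ x, x ^ (i + 2) ∂ρ := by
  have h1 : ∀ x : ℝ, x ^ 2 * p.eval x =
      ∑ i ∈ Finset.range (p.natDegree + 1), p.coeff i * x ^ (i + 2) := by
    intro x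
    rw [Polynomial.eval_eq_sum_range, Finset.mul_sum]
    refine Finset.sum_congr rfl fun i _ => ?_
    ring
  simp only [h1]
  rw [integral_finset_sum]
  · refine Finset.sum_congr rfl fun i _ => ?_
    rw [integral_const_mul]
  · intro i _
    exact integrable_cont h0 (by fun_prop)

theorem int_near {G P : ℝ → ℝ} (hG : Continuous G) (hP : Continuous P) {ε : ℝ}
    (h : ∀ x ∈ Icc (0 : ℝ) 1, |P x - G x| ≤ ε) :
    |∫ x, x ^ 2 * G x ∂ρ - ∫ x, x ^ 2 * P x ∂ρ| ≤ ε * ∫ x, x ^ 2 ∂ρ := by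
  rw [← integral_sub (integrable_cont h0 (by fun_prop)) (integrable_cont h0 (by fun_prop)),
    ← integral_const_mul]
  refine (abs_integral_le_integral_abs).trans (integral_mono_ae ?_ ?_ ?_)
  · exact integrable_cont h0 (by fun_prop)
  · exact integrable_cont h0 (by fun_prop)
  · filter_upwards [ae_mem h0] with x hx
    have h2 := h x hx
    rw [← mul_sub, abs_mul, abs_of_nonneg (sq_nonneg x), abs_sub_comm, mul_comm]
    exact mul_le_mul_of_nonneg_right h2 (sq_nonneg x)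

end one

section seq
variable {ρ : ℕ → Measure ℝ} (hf : ∀ d, IsFiniteMeasure (ρ d)) (h0 : ∀ d, ρ d (Icc 0 1)ᶜ = 0)
  (hm : ∀ k : ℕ, 2 ≤ k → ∃ c : ℝ, 0 < c ∧ Tendsto (fun d => ∫ x, x ^ k ∂(ρ d)) atTop (𝓝 c))

include hf h0 hm

theorem conv_poly (p : Polynomial ℝ) :
    ∃ l, Tendsto (fun d => ∫ x, x ^ 2 * p.eval x ∂(ρ d)) atTop (𝓝 l) := by
  have h1 : ∀ i : ℕ, ∃ c : ℝ, Tendsto (fun d => ∫ x, x ^ (i + 2) ∂(ρ d)) atTop (𝓝 c) := by
    intro i
    obtain ⟨c, -, h⟩ := hm (i + 2) (by omega)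
    exact ⟨c, h⟩
  choose c hc using h1
  refine ⟨∑ i ∈ Finset.range (p.natDegree + 1), p.coeff i * c i, ?_⟩
  have h2 : ∀ d, ∫ x, x ^ 2 * p.eval x ∂(ρ d) =
      ∑ i ∈ Finset.range (p.natDegree + 1), p.coeff i * ∫ x, x ^ (i + 2) ∂(ρ d) := by
    intro d
    have := hf d
    exact int_poly (h0 d) p
  simp only [h2]
  exact tendsto_finset_sum _ fun i _ => (hc i).const_mul _

theorem conv {G : ℝ → ℝ} (hG : Continuous G) :
    ∃ l, Tendsto (fun d => ∫ x, x ^ 2 * G x ∂(ρ d)) atTop (𝓝 l) := by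
  obtain ⟨c, hc0, hc⟩ := hm 2 le_rfl
  apply cauchySeq_tendsto_of_complete
  rw [Metric.cauchySeq_iff']
  intro ε hε
  have hη : 0 < ε / (4 * (c + 1)) := by positivity
  obtain ⟨p, hp⟩ := exists_polynomial_near_of_continuousOn 0 1 G hG.continuousOn _ hη
  obtain ⟨l, hl⟩ := conv_poly hf h0 hm p
  have e1 : ∀ᶠ d in atTop, ∫ x, x ^ 2 ∂(ρ d) < c + 1 := hc.eventually_lt_const (by linarith)
  have e2 : ∀ᶠ d in atTop, |∫ x, x ^ 2 * p.eval x ∂(ρ d) - l| < ε / 4 := by
    have := (Metric.tendsto_nhds.1 hl) (ε / 4) (by positivity)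
    simpa only [Real.dist_eq] using this
  obtain ⟨N, hN⟩ := eventually_atTop.1 (e1.and e2)
  have key : ∀ d, N ≤ d → |∫ x, x ^ 2 * G x ∂(ρ d) - l| < ε / 2 := by
    intro d hd
    obtain ⟨a1, a2⟩ := hN d hd
    have := hf d
    have a3 := int_near (h0 d) hG p.continuous (ε := ε / (4 * (c + 1)))
      (fun x hx => (hp x hx).le)
    have a4 : ε / (4 * (c + 1)) * ∫ x, x ^ 2 ∂(ρ d) ≤ ε / 4 := by
      calc _ ≤ ε / (4 * (c + 1)) * (c + 1) := mul_le_mul_of_nonneg_left a1.le hη.le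
        _ = ε / 4 := by field_simp
    have a5 := abs_sub_le (∫ x, x ^ 2 * G x ∂(ρ d)) (∫ x, x ^ 2 * p.eval x ∂(ρ d)) l
    linarith
  refine ⟨N, fun d hd => ?_⟩
  rw [Real.dist_eq]
  have b1 := key d hd
  have b2 := key N le_rfl
  have b3 := abs_sub_le (∫ x, x ^ 2 * G x ∂(ρ d)) l (∫ x, x ^ 2 * G x ∂(ρ N))
  rw [abs_sub_comm l] at b3
  linarith

end seq

/-- every compactly supported function is `x ^ 2` times a continuous function -/
theorem exists_G (f : C_c(Ioi (0 : ℝ), ℝ)) : ∃ G : ℝ → ℝ, Continuous G ∧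
    ∀ x : Ioi (0 : ℝ), f x = (x : ℝ) ^ 2 * G x := by
  have hK : IsCompact (tsupport f) := f.hasCompactSupport
  obtain ⟨a, ha0, ha⟩ : ∃ a : ℝ, 0 < a ∧ ∀ x ∈ tsupport f, a ≤ (x : ℝ) := by
    rcases (tsupport f).eq_empty_or_nonempty with h | h
    · refine ⟨1, one_pos, fun x hx => ?_⟩
      rw [h] at hx
      exact absurd hx (notMem_empty _)
    · obtain ⟨y, hy, hy2⟩ := hK.exists_isMinOn h continuous_subtype_val.continuousOn
      exact ⟨y, y.2, fun x hx => hy2 hx⟩
  have hpos : ∀ x : ℝ, 0 < max x (a / 2) := fun x => lt_max_of_lt_right (by positivity)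
  refine ⟨fun x => f ⟨max x (a / 2), hpos x⟩ / (max x (a / 2)) ^ 2, ?_, ?_⟩
  · refine Continuous.div ?_ (by fun_prop) (fun x => by have := hpos x; positivity)
    exact f.continuous.comp (Continuous.subtype_mk (by fun_prop) _)
  · intro x
    have hx : 0 < (x : ℝ) := x.2
    by_cases h : a / 2 ≤ (x : ℝ)
    · have h1 : max (x : ℝ) (a / 2) = x := max_eq_left h
      have h2 : (⟨max (x : ℝ) (a / 2), hpos x⟩ : Ioi (0 : ℝ)) = x := Subtype.ext h1
      simp only [h2, h1]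
      field_simp
    · push Not at h
      have hz : ∀ y : Ioi (0 : ℝ), (y : ℝ) < a → f y = 0 := by
        intro y hy
        by_contra hne
        have := ha y (subset_tsupport _ hne)
        linarith
      have h1 : max (x : ℝ) (a / 2) = a / 2 := max_eq_right h.le
      rw [hz x (by linarith)]
      have h3 : f ⟨max (x : ℝ) (a / 2), hpos x⟩ = 0 := hz _ (by
        show max (x : ℝ) (a / 2) < a
        rw [h1]; linarith)
      simp only [h3]
      simp

/-- the test function -/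
theorem exists_test {ε : ℝ} (hε : 0 < ε) : ∃ f : C_c(Ioi (0 : ℝ), ℝ), ∀ x : Ioi (0 : ℝ),
    f x = (x : ℝ) ^ 2 * (min (max ((x : ℝ) - ε) 0) (max (2 - (x : ℝ)) 0)) := by
  have hc : Continuous fun x : Ioi (0 : ℝ) =>
      (x : ℝ) ^ 2 * (min (max ((x : ℝ) - ε) 0) (max (2 - (x : ℝ)) 0)) := by fun_prop
  refine ⟨⟨⟨_, hc⟩, ?_⟩, fun x => rfl⟩
  refine HasCompactSupport.intro (K := (Subtype.val : Ioi (0 : ℝ) → ℝ) ⁻¹' (Icc ε 2)) ?_ ?_
  · rw [Topology.IsInducing.subtypeVal.isCompact_iff]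
    have h1 : (Subtype.val : Ioi (0 : ℝ) → ℝ) '' ((Subtype.val : Ioi (0 : ℝ) → ℝ) ⁻¹' (Icc ε 2)) =
        Icc ε 2 := by
      rw [image_preimage_eq_iff, Subtype.range_val]
      intro x hx
      exact lt_of_lt_of_le hε hx.1
    rw [h1]
    exact isCompact_Icc
  · intro x hx
    have h1 : (x : ℝ) < ε ∨ 2 < (x : ℝ) := by
      by_contra h
      push Not at h
      exact hx h
    show (x : ℝ) ^ 2 * (min (max ((x : ℝ) - ε) 0) (max (2 - (x : ℝ)) 0)) = 0
    rcases h1 with h | h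
    · rw [max_eq_right (by linarith : (x : ℝ) - ε ≤ 0), min_eq_left (le_max_right _ _), mul_zero]
    · rw [max_eq_right (by linarith : 2 - (x : ℝ) ≤ 0), min_eq_right (le_max_right _ _), mul_zero]

/-- piece MOM -/
theorem t_MOM : S_MOM := by
  intro ρ hf h0 hm
  have hloc : LocallyCompactSpace (Ioi (0 : ℝ)) := isOpen_Ioi.locallyCompactSpace
  have hint : ∀ (d : ℕ) (f : C_c(Ioi (0 : ℝ), ℝ)) (G : ℝ → ℝ),
      (∀ x : Ioi (0 : ℝ), f x = (x : ℝ) ^ 2 * G x) →
      ∫ x, f x ∂((ρ d).comap Subtype.val) = ∫ x, x ^ 2 * G x ∂(ρ d) := by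
    intro d f G hG
    have := hf d
    simp only [hG]
    exact int_comap (h0 d) (fun x => x ^ 2 * G x) (by simp)
  have hconv : ∀ f : C_c(Ioi (0 : ℝ), ℝ), ∃ l,
      Tendsto (fun d => ∫ x, f x ∂((ρ d).comap Subtype.val)) atTop (𝓝 l) := by
    intro f
    obtain ⟨G, hGc, hG⟩ := exists_G f
    obtain ⟨l, hl⟩ := conv hf h0 hm hGc
    refine ⟨l, ?_⟩
    simp only [hint _ f G hG]
    exact hl
  have hintg : ∀ (d : ℕ) (f : C_c(Ioi (0 : ℝ), ℝ)),
      Integrable f ((ρ d).comap (Subtype.val : Ioi (0 : ℝ) → ℝ)) := by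
    intro d f
    have := hf d
    have h1 : IsFiniteMeasure ((ρ d).comap (Subtype.val : Ioi (0 : ℝ) → ℝ)) := by
      refine ⟨?_⟩
      rw [Measure.comap_apply _ Subtype.val_injective
        (fun s hs => (MeasurableEmbedding.subtype_coe measurableSet_Ioi).measurableSet_image.2 hs) _
        MeasurableSet.univ]
      exact measure_lt_top _ _
    exact f.continuous.integrable_of_hasCompactSupport f.hasCompactSupport
  choose L hL using hconv
  let Λ₀ : C_c(Ioi (0 : ℝ), ℝ) →ₗ[ℝ] ℝ :=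
    { toFun := L
      map_add' := by
        intro f g
        refine tendsto_nhds_unique (hL (f + g)) ?_
        refine ((hL f).add (hL g)).congr fun d => ?_
        rw [← integral_add (hintg d f) (hintg d g)]
        rfl
      map_smul' := by
        intro a f
        refine tendsto_nhds_unique (hL (a • f)) ?_
        refine ((hL f).const_mul a).congr fun d => ?_
        rw [← integral_const_mul]
        rfl }
  have hΛ : ∀ f : C_c(Ioi (0 : ℝ), ℝ), 0 ≤ f → 0 ≤ Λ₀ f := by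
    intro f hfp
    refine ge_of_tendsto' (hL f) fun d => ?_
    exact integral_nonneg fun x => hfp x
  let Λ : C_c(Ioi (0 : ℝ), ℝ) →ₚ[ℝ] ℝ := PositiveLinearMap.mk₀ Λ₀ hΛ
  have hμ : ∀ f : C_c(Ioi (0 : ℝ), ℝ), ∫ x, f x ∂(RealRMK.rieszMeasure Λ) = L f :=
    fun f => RealRMK.integral_rieszMeasure Λ f
  refine ⟨RealRMK.rieszMeasure Λ, ?_, ?_, ?_⟩
  · infer_instance
  · intro hz
    obtain ⟨c2, hc2, h2⟩ := hm 2 le_rfl
    obtain ⟨c3, hc3, h3⟩ := hm 3 (by norm_num)
    obtain ⟨ε, hε⟩ : ∃ ε : ℝ, ε = c3 / (2 * c2) := ⟨_, rfl⟩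
    have hε0 : 0 < ε := by rw [hε]; positivity
    obtain ⟨f, hfx⟩ := exists_test hε0
    have hL0 : L f = 0 := by
      rw [← hμ f, hz, integral_zero_measure]
    have h5 : Tendsto (fun d => ∫ x, x ^ 3 ∂(ρ d) - ε * ∫ x, x ^ 2 ∂(ρ d)) atTop
        (𝓝 (c3 - ε * c2)) := h3.sub (h2.const_mul ε)
    have h6 : c3 - ε * c2 ≤ L f := by
      refine le_of_tendsto_of_tendsto' h5 (hL f) fun d => ?_
      have := hf d
      rw [hint d f (fun x => min (max (x - ε) 0) (max (2 - x) 0)) hfx, ← integral_const_mul,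
        ← integral_sub (integrable_cont (h0 d) (by fun_prop)) (integrable_cont (h0 d) (by fun_prop))]
      refine integral_mono_ae (integrable_cont (h0 d) (by fun_prop))
        (integrable_cont (h0 d) (by fun_prop)) ?_
      filter_upwards [ae_mem (h0 d)] with x hx
      have h7 : x - ε ≤ min (max (x - ε) 0) (max (2 - x) 0) := by
        refine le_min (le_max_left _ _) ?_
        refine le_trans ?_ (le_max_left _ _)
        linarith [hx.2]
      have h8 := mul_le_mul_of_nonneg_left h7 (sq_nonneg x)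
      nlinarith
    have h9 : c3 - ε * c2 = c3 / 2 := by
      rw [hε]; field_simp; ring
    linarith
  · intro f
    rw [hμ f]
    exact hL f

end Pool.Agent.Run7.h975.SA
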