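import Pool.Agent.Run7.h717.SA.Iface

/-! Piece SYM: the symmetry of the moments. -/

set_option autoImplicit false

namespace Pool.Agent.Run7.h975.SA

open MeasureTheory ProbabilityTheory Filter Topology
open scoped ENNReal
open Pool.Agent.Run7.h717.SA

/-- the density -/
noncomputable def dn (d k : ℕ) (M : Fin k → Fin d → ℝ) : ℝ≥0∞ :=
  ENNReal.ofReal ((1 + Matrix.of M * (Matrix.of M).transpose).det ^ (-(((d + k : ℕ) : ℝ)) / 2))

theorem meas_dn (d k : ℕ) : Measurable (dn d k) := by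
  unfold dn
  refine ENNReal.measurable_ofReal.comp ?_
  have h1 : Continuous fun M : Fin k → Fin d → ℝ =>
      (1 + Matrix.of M * (Matrix.of M).transpose).det := by
    have h2 : Continuous fun M : Fin k → Fin d → ℝ => (Matrix.of M : Matrix (Fin k) (Fin d) ℝ) :=
      continuous_id
    exact (continuous_const.add (h2.matrix_mul h2.matrix_transpose)).matrix_det
  exact h1.measurable.pow_const _

theorem dn_tr (d k : ℕ) (M : Fin k → Fin d → ℝ) : dn k d (fun i j => M j i) = dn d k M := by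
  unfold dn
  have h1 : (Matrix.of fun (i : Fin d) (j : Fin k) => M j i) = (Matrix.of M).transpose := rfl
  rw [h1, Matrix.transpose_transpose, ← Matrix.det_one_add_mul_comm, add_comm k d]

theorem int_swap (hTR : S_TR) (d k : ℕ) {S : Set (Fin d → Fin k → ℝ)} (hS : MeasurableSet S) :
    ∫⁻ M in S, dn k d M = ∫⁻ M in {M : Fin k → Fin d → ℝ | (fun i j => M j i) ∈ S}, dn d k M := by
  have hT : Measurable fun (M : Fin k → Fin d → ℝ) (i : Fin d) (j : Fin k) => M j i := by
    rw [measurable_pi_iff]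
    intro i
    rw [measurable_pi_iff]
    intro j
    exact (measurable_pi_apply i).comp (measurable_pi_apply j)
  have h1 := hTR d k
  rw [← h1, setLIntegral_map hS (meas_dn k d) hT]
  refine lintegral_congr fun M => ?_
  exact dn_tr d k M

/-- the nonnegative matrices -/
def Sp (d k : ℕ) : Set (Fin k → Fin d → ℝ) := {M | ∀ j i, 0 ≤ M j i}

theorem meas_Sp (d k : ℕ) : MeasurableSet (Sp d k) := by
  have h1 : Sp d k = ⋂ j, ⋂ i, {M : Fin k → Fin d → ℝ | 0 ≤ M j i} := by
    ext M
    simp [Sp]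
  rw [h1]
  refine MeasurableSet.iInter fun j => MeasurableSet.iInter fun i => ?_
  exact measurableSet_le measurable_const ((measurable_pi_apply i).comp (measurable_pi_apply j))

theorem prob_GG (n d : ℕ) : IsProbabilityMeasure (GG n d) := by
  unfold GG
  infer_instance

theorem set_pos (d k : ℕ) : {p : (Fin d → E d) × (Fin k → E d) | ∀ j, p.2 j ∈ pos p.1} =
    {p | ∃ M ∈ Sp d k, ∀ j, p.2 j = ∑ i, M j i • p.1 i} := by
  ext p
  simp only [Set.mem_setOf_eq, pos, Sp]
  constructor
  · intro h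
    choose c hc1 hc2 using h
    exact ⟨c, hc1, hc2⟩
  · rintro ⟨M, h1, h2⟩ j
    exact ⟨M j, h1 j, h2 j⟩

theorem full (hLI : S_LI) (d k : ℕ) :
    ((GG d d).prod (GG k d)) {p | ∃ M ∈ (Set.univ : Set (Fin k → Fin d → ℝ)),
      ∀ j, p.2 j = ∑ i, M j i • p.1 i} = 1 := by
  have := prob_GG d d
  have := prob_GG k d
  have h1 : ∀ᵐ p ∂((GG d d).prod (GG k d)), LinearIndependent ℝ p.1 :=
    Measure.quasiMeasurePreserving_fst.ae (hLI d d le_rfl)
  have h2 : ∀ᵐ p ∂((GG d d).prod (GG k d)), p ∈ {p : (Fin d → E d) × (Fin k → E d) |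
      ∃ M ∈ (Set.univ : Set (Fin k → Fin d → ℝ)), ∀ j, p.2 j = ∑ i, M j i • p.1 i} := by
    filter_upwards [h1] with p hp
    have hsp : Submodule.span ℝ (Set.range p.1) = ⊤ := by
      apply hp.span_eq_top_of_card_eq_finrank'
      simp
    have h3 : ∀ j, ∃ c : Fin d → ℝ, ∑ i, c i • p.1 i = p.2 j := by
      intro j
      have h4 : p.2 j ∈ Submodule.span ℝ (Set.range p.1) := by
        rw [hsp]
        exact Submodule.mem_top
      exact (Submodule.mem_span_range_iff_exists_fun ℝ).1 h4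
    choose c hc using h3
    exact ⟨c, Set.mem_univ _, fun j => (hc j).symm⟩
  exact (measure_congr (eventuallyEq_univ.2 h2)).trans measure_univ

/-- piece SYM -/
theorem t_SYM (hPOW : S_POW) (hDEN : S_DEN) (hTR : S_TR) (hLI : S_LI) : S_SYM := by
  intro d k hd hk
  obtain ⟨C, hC⟩ := hDEN d k hd hk
  obtain ⟨C', hC'⟩ := hDEN k d hk hd
  have a1 : mm d k = (C * ∫⁻ M in Sp d k, dn d k M).toReal := by
    rw [hPOW d k, set_pos, Measure.real, hC _ (meas_Sp d k)]
    rfl
  have a2 : mm k d = (C' * ∫⁻ M in Sp k d, dn k d M).toReal := by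
    rw [hPOW k d, set_pos, Measure.real, hC' _ (meas_Sp k d)]
    rfl
  have b1 : C * ∫⁻ M in Set.univ, dn d k M = 1 := by
    rw [← full hLI d k, hC _ MeasurableSet.univ]
    rfl
  have b2 : C' * ∫⁻ M in Set.univ, dn k d M = 1 := by
    rw [← full hLI k d, hC' _ MeasurableSet.univ]
    rfl
  have e1 : ∫⁻ M in Sp k d, dn k d M = ∫⁻ M in Sp d k, dn d k M := by
    rw [int_swap hTR d k (meas_Sp k d)]
    congr 2
    ext M
    simp only [Sp, Set.mem_setOf_eq]
    exact ⟨fun h j i => h i j, fun h j i => h i j⟩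
  have e2 : ∫⁻ M in Set.univ, dn k d M = ∫⁻ M in Set.univ, dn d k M := by
    rw [int_swap hTR d k MeasurableSet.univ]
    simp
  rw [e2] at b2
  have hCC : C = C' := by
    rw [ENNReal.eq_inv_of_mul_eq_one_left b1, ENNReal.eq_inv_of_mul_eq_one_left b2]
  rw [a1, a2, e1, hCC]

end Pool.Agent.Run7.h975.SA
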